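import Pool.Agent.Y552.Gp.Main

set_option autoImplicit false

/-!
# The linear languages are not G-principal
-/

namespace Pool.Agent.Results.MP_773080_lc.LinNotGPrincipal

open Pool.Agent.Y552.Gp

/-- `Lin` is not G-principal: there is no `L` in `Lin` with `Lin = G(L)`. More precisely, for every
`L` in `Lin` some language of `Lin` is not in `G(L)`. -/
theorem result :
    ¬ GPrincipal Lin ∧
      ∀ (Y : Type) [Finite Y] (L : Language Y), Lin Y L →
        ∃ (X : Type) (_ : Finite X) (N : Language X), Lin X N ∧ ¬ G L X N :=
  ⟨lin_not_gprincipal, fun _ _ L hL => lin_not_G L hL⟩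

end Pool.Agent.Results.MP_773080_lc.LinNotGPrincipal
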